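import Mathlib
import Pool.Agent.R102.Nested

set_option autoImplicit false

/-!
# Poonen's inequality for families of nonempty sets whose members below any nonmember form a chain

Let `F` be a family of nonempty subsets of `V`, `V ∈ F`, such that the members contained in any set
outside `F` form a chain. Then `F` is union-closed and some element lies in strictly more than half
of the members of `F`.
-/

namespace Pool.Agent.Results.MP_75f39d_co.ChainsNoEmpty

open Finset

/-- Let `F` be a family of nonempty subsets of a finite nonempty set `V` with `V ∈ F`, such that any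
two members contained in a common nonmember are comparable. Then `F` is union-closed, and some
element lies in strictly more than half of the members of `F`. -/
theorem result {V : Type*} [Fintype V] [DecidableEq V] [Nonempty V] (F : Finset (Finset V))
    (huniv : (univ : Finset V) ∈ F) (hempty : ∅ ∉ F)
    (hchain : ∀ C, C ∉ F → ∀ X ∈ F, ∀ Y ∈ F, X ⊆ C → Y ⊆ C → X ⊆ Y ∨ Y ⊆ X) :
    (∀ A ∈ F, ∀ B ∈ F, A ∪ B ∈ F) ∧
    ∃ x : V, F.card < 2 * (F.filter (fun A => x ∈ A)).card := by
  have hN : ∀ X ∈ F, ∀ Y ∈ F, ¬ X ⊆ Y → ¬ Y ⊆ X → ∀ C, X ∪ Y ⊆ C → C ∈ F := by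
    intro X hX Y hY hXY hYX C hC
    by_contra hCF
    rcases hchain C hCF X hX Y hY (subset_union_left.trans hC) (subset_union_right.trans hC)
      with h | h
    · exact hXY h
    · exact hYX h
  refine ⟨?_, ?_⟩
  · intro A hA B hB
    by_cases hAB : A ⊆ B
    · rwa [union_eq_right.2 hAB]
    by_cases hBA : B ⊆ A
    · rwa [union_eq_left.2 hBA]
    exact hN A hA B hB hAB hBA _ Subset.rfl
  · have hNest : Pool.Agent.R102.Nested.Nest F :=
      fun X hX Y hY _ _ hXY hYX => hN X hX Y hY hXY hYX
    obtain ⟨x, hx⟩ := hNest.abundant huniv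
    rw [Finset.erase_eq_of_notMem hempty] at hx
    exact ⟨x, hx⟩

end Pool.Agent.Results.MP_75f39d_co.ChainsNoEmpty
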