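import Mathlib
import Pool.Agent.R102.ChainTwo

set_option autoImplicit false

/-!
# Poonen's inequality for families of nonempty sets in which no nonmember contains three nested
members

Let `F` be a union-closed family of nonempty subsets of `V`, `V ∈ F`, such that no subset of `V`
outside `F` contains three members `X ⊂ Y ⊂ Z` of `F`. Then some element lies in strictly more than
half of the members of `F`.
-/

namespace Pool.Agent.Results.MP_75f39d_co.ShortChainsNoEmpty

open Finset

/-- Let `F` be a union-closed family of nonempty subsets of a finite nonempty set `V` with `V ∈ F`.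
Suppose that no set outside `F` contains a chain `X ⊂ Y ⊂ Z` of three members of `F`. Then some
element lies in strictly more than half of the members of `F`. -/
theorem result {V : Type*} [Fintype V] [DecidableEq V] [Nonempty V] (F : Finset (Finset V))
    (huniv : (univ : Finset V) ∈ F) (hempty : ∅ ∉ F) (hunion : ∀ A ∈ F, ∀ B ∈ F, A ∪ B ∈ F)
    (hchain : ∀ C, C ∉ F → ¬ ∃ X ∈ F, ∃ Y ∈ F, ∃ Z ∈ F, X ⊂ Y ∧ Y ⊂ Z ∧ Z ⊆ C) :
    ∃ x : V, F.card < 2 * (F.filter (fun A => x ∈ A)).card := by
  have hG : Pool.Agent.R102.ChainTwo.Good F := by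
    refine ⟨huniv, hunion, ?_⟩
    intro X hX Y hY Z hZ _ hXY hYZ C hZC
    by_contra hC
    exact hchain C hC ⟨X, hX, Y, hY, Z, hZ, hXY, hYZ, hZC⟩
  obtain ⟨x, hx⟩ := hG.abundant inferInstance
  rw [Finset.erase_eq_of_notMem hempty] at hx
  exact ⟨x, hx⟩

end Pool.Agent.Results.MP_75f39d_co.ShortChainsNoEmpty
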