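import Pool.Agent.R636.FUni3

set_option autoImplicit false

/-!
# Poonen's strict form for the lattices of subrings and subalgebras of finite rings

We prove Poonen's strengthening of the union-closed sets conjecture for every separating finite
union-closed family whose inclusion order is dual to the lattice of all subrings of a finite
associative ring (with or without unity), to the lattice of all unital subrings of a finite ring
with unity, or to the lattice of all (unital) subalgebras of a finite (unital) associative algebra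
over any commutative ring: unless the family is a power set, some element lies in strictly more than
half of its members.

Proof. As for the weak inequality one finds a join-irreducible subring `J` contained in at most half
of the subrings. Equality forces the lattice of subrings to be the product of the lattice of the
subrings of a maximal subring `N` and a chain of length one, and one concludes by induction.
-/

namespace Pool.Agent.Results.MP_75f39d_co.SubringLattices

universe u v w

theorem result :
    -- all subrings of a finite ring, with or without unity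
    (∀ (R : Type u) [NonUnitalRing R] [Finite R]
      (α : Type w) [DecidableEq α] (A : Finset (Finset α)),
      Nonempty ({X // X ∈ A} ≃o (NonUnitalSubring R)ᵒᵈ) →
      (∀ X ∈ A, ∀ Y ∈ A, X ∪ Y ∈ A) →
      (∀ x ∈ A.sup id, ∀ y ∈ A.sup id, x ≠ y → ∃ S ∈ A, (x ∈ S ∧ y ∉ S) ∨ (y ∈ S ∧ x ∉ S)) →
      A ≠ (A.sup id).powerset →
      ∃ x ∈ A.sup id, 2 * (A.filter fun S => x ∈ S).card > A.card) ∧
    -- all unital subrings of a finite ring with unity
    (∀ (R : Type u) [Ring R] [Finite R]
      (α : Type w) [DecidableEq α] (A : Finset (Finset α)),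
      Nonempty ({X // X ∈ A} ≃o (Subring R)ᵒᵈ) →
      (∀ X ∈ A, ∀ Y ∈ A, X ∪ Y ∈ A) →
      (∀ x ∈ A.sup id, ∀ y ∈ A.sup id, x ≠ y → ∃ S ∈ A, (x ∈ S ∧ y ∉ S) ∨ (y ∈ S ∧ x ∉ S)) →
      A ≠ (A.sup id).powerset →
      ∃ x ∈ A.sup id, 2 * (A.filter fun S => x ∈ S).card > A.card) ∧
    -- all subalgebras of a finite associative algebra over a commutative ring
    (∀ (K : Type v) [CommRing K] (R : Type u) [NonUnitalRing R] [Module K R]
      [IsScalarTower K R R] [SMulCommClass K R R] [Finite R]
      (α : Type w) [DecidableEq α] (A : Finset (Finset α)),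
      Nonempty ({X // X ∈ A} ≃o (NonUnitalSubalgebra K R)ᵒᵈ) →
      (∀ X ∈ A, ∀ Y ∈ A, X ∪ Y ∈ A) →
      (∀ x ∈ A.sup id, ∀ y ∈ A.sup id, x ≠ y → ∃ S ∈ A, (x ∈ S ∧ y ∉ S) ∨ (y ∈ S ∧ x ∉ S)) →
      A ≠ (A.sup id).powerset →
      ∃ x ∈ A.sup id, 2 * (A.filter fun S => x ∈ S).card > A.card) ∧
    -- all unital subalgebras of a finite unital associative algebra over a commutative ring
    (∀ (K : Type v) [CommRing K] (R : Type u) [Ring R] [Algebra K R] [Finite R]
      (α : Type w) [DecidableEq α] (A : Finset (Finset α)),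
      Nonempty ({X // X ∈ A} ≃o (Subalgebra K R)ᵒᵈ) →
      (∀ X ∈ A, ∀ Y ∈ A, X ∪ Y ∈ A) →
      (∀ x ∈ A.sup id, ∀ y ∈ A.sup id, x ≠ y → ∃ S ∈ A, (x ∈ S ∧ y ∉ S) ∨ (y ∈ S ∧ x ∉ S)) →
      A ≠ (A.sup id).powerset →
      ∃ x ∈ A.sup id, 2 * (A.filter fun S => x ∈ S).card > A.card) := by
  refine ⟨?_, ?_, ?_, ?_⟩
  · rintro R _ _ α _ A ⟨e⟩ hA hsep hpow
    have : Finite (NonUnitalSubring R) := Finite.of_injective
      (fun H : NonUnitalSubring R => (H : Set R)) SetLike.coe_injective
    exact Pool.Agent.R636.FL.poonen_of_good A hA e (Pool.Agent.R636.FL.good_ring R)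
      ⟨_, (e.symm (OrderDual.toDual ⊥)).2⟩ hsep hpow
  · rintro R _ _ α _ A ⟨e⟩ hA hsep hpow
    have : Finite (Subring R) := Finite.of_injective
      (fun H : Subring R => (H : Set R)) SetLike.coe_injective
    exact Pool.Agent.R636.FL.poonen_of_good A hA e (Pool.Agent.R636.FL.good_ringU R)
      ⟨_, (e.symm (OrderDual.toDual ⊥)).2⟩ hsep hpow
  · rintro K _ R _ _ _ _ _ α _ A ⟨e⟩ hA hsep hpow
    have := Pool.Agent.R636.FL.finSub K R
    exact Pool.Agent.R636.FL.poonen_of_good A hA e (Pool.Agent.R636.FL.good_alg K R)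
      ⟨_, (e.symm (OrderDual.toDual ⊥)).2⟩ hsep hpow
  · rintro K _ R _ _ _ α _ A ⟨e⟩ hA hsep hpow
    have := Pool.Agent.R636.FL.finSubU K R
    exact Pool.Agent.R636.FL.poonen_of_good A hA e (Pool.Agent.R636.FL.good_algU K R)
      ⟨_, (e.symm (OrderDual.toDual ⊥)).2⟩ hsep hpow

end Pool.Agent.Results.MP_75f39d_co.SubringLattices
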