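import Pool.Agent.R142.UC.Graph

/-!
# Poonen's strengthening of the union-closed sets conjecture for families with a symmetric potential

Let `c` be a symmetric submodular function on the subsets of a finite set `V` (for instance a cut
function of a graph or hypergraph, or the connectivity function of a matroid) and let `w ≥ 0` be
weights of the elements. The sets `W` such that `c W - w(W) ≤ c S - w(S)` for all `S ⊆ W` form a
union-closed family (`stable c w`). We prove Poonen's strengthening, and Frankl's conjecture, for
these families and for all subfamilies `F'` which are closed under unions with members of the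
family (side conditions that are inherited by larger sets). The same is proved for

* the vertex sets `W` of a graph `G` whose induced subgraph has an orientation in which every
  `x ∈ W` has in-degree at least `m x`, where `2 m x ≤ deg x` (`orientFam G m`); this is the case of
  the cut function;
* the vertex sets `W` of a graph in which every `x ∈ W` has at least `k x` neighbours, where
  `k x ≤ 2` (`minDegFam G k`), for instance the sets that induce subgraphs of minimum degree two.

Proof. Let `F` be union-closed, `∅ ∈ F`, and for a member `W` let `W*` be the largest member disjoint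
from `W`. The matrix of the disjointness relation of a simplicial complex is nonsingular; this gives
(Ahlswede and Daykin) that, for any set `A` of members, at most as many members are disjoint from some
member of `A` as members contain some member of `A`, and by Hall's theorem the members have a
permutation `ψ` with `W* ⊆ ψ W` for all `W` (part 4 below, for all union-closed families). Hence
`∑ p W* ≤ ∑ p W` for every function `p` that is monotone on `F`. In the above classes there is such a
`p` with `p (V \ W) ≤ p W*` and `p W - p (V \ W) = w(W) - w(V \ W)` with weights `w ≥ 0`; so the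
elements, weighted by `w`, lie on the average in at least half of the members, and the equality case
can be analysed.
-/

open Finset Pool.Agent.R142.UC

namespace Pool.Agent.Results.MP_75f39d_co.SymmetricPotentials

universe u

/-- `F` is union-closed with `∅ ∈ F`, and every nonempty subfamily `F'` which is closed under unions
with members of `F` (for instance `F' = F`) satisfies Frankl's conjecture and Poonen's
strengthening: if `F'` has a nonempty member, some element lies in at least half of the members of
`F'`; if `F'` is separating and not a power set, some element lies in more than half of them. -/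
def Conclusion {V : Type u} [DecidableEq V] (F : Finset (Finset V)) : Prop :=
  ∅ ∈ F ∧ (∀ X ∈ F, ∀ Y ∈ F, X ∪ Y ∈ F) ∧
    ∀ F' : Finset (Finset V), F' ⊆ F → F'.Nonempty → (∀ W ∈ F', ∀ X ∈ F, W ∪ X ∈ F') →
      ((∃ W ∈ F', W.Nonempty) →
        ∃ x, F'.card ≤ 2 * (F'.filter (fun W => x ∈ W)).card) ∧
      ((∀ x ∈ F'.sup id, ∀ y ∈ F'.sup id, x ≠ y → ∃ W ∈ F', ¬ (x ∈ W ↔ y ∈ W)) →
        F' ≠ (F'.sup id).powerset →
          ∃ x ∈ F'.sup id, F'.card < 2 * (F'.filter (fun W => x ∈ W)).card)

theorem conclusion {V : Type u} [DecidableEq V] {F : Finset (Finset V)} {p : Finset V → ℝ}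
    {w : V → ℝ} (h : Potential F p w) : Conclusion F := by
  refine ⟨h.empty_mem, h.union_mem, ?_⟩
  intro F' hF hne hu
  obtain ⟨h1, h2⟩ := franklPoonen h F' hF hu hne
  refine ⟨h1, ?_⟩
  intro hs hp
  obtain ⟨x, hx⟩ := h2 hs hp
  refine ⟨x, ?_, hx⟩
  have hpos : 0 < (F'.filter (fun W => x ∈ W)).card := by
    unfold freq at hx
    omega
  obtain ⟨W, hW⟩ := Finset.card_pos.1 hpos
  obtain ⟨hW1, hW2⟩ := Finset.mem_filter.1 hW
  exact subset_sup F' hW1 hW2

/-- Poonen's strengthening (1) for the families given by symmetric submodular functions, (2) for the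
vertex sets whose induced subgraphs have orientations with prescribed lower bounds of the
in-degrees, (3) for the vertex sets whose induced subgraphs have degrees at least `k x ≤ 2`, and
(4) the permutation theorem for all finite union-closed families. -/
theorem result :
    (∀ (V : Type u) [Fintype V] [DecidableEq V] (c : Finset V → ℝ) (w : V → ℝ),
      (c ∅ = 0 ∧ (∀ S, c Sᶜ = c S) ∧ ∀ S T, c (S ∪ T) + c (S ∩ T) ≤ c S + c T) →
      (∀ x, 0 ≤ w x) →
      Finset.univ ∈ stable c w ∧ Conclusion (stable c w)) ∧
    (∀ (V : Type u) [Fintype V] [DecidableEq V] (G : SimpleGraph V) [DecidableRel G.Adj]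
      (m : V → ℕ), (∀ x, 2 * m x ≤ G.degree x) → Conclusion (orientFam G m)) ∧
    (∀ (V : Type u) [Fintype V] [DecidableEq V] (G : SimpleGraph V) [DecidableRel G.Adj]
      (k : V → ℕ), (∀ x, k x ≤ 2) → Conclusion (minDegFam G k)) ∧
    (∀ (V : Type u) [DecidableEq V] (F : Finset (Finset V)), ∅ ∈ F →
      (∀ X ∈ F, ∀ Y ∈ F, X ∪ Y ∈ F) →
      ∃ ψ : Equiv.Perm {W // W ∈ F}, ∀ W : {W // W ∈ F}, ∀ X ∈ F,
        Disjoint X W.1 → X ⊆ (ψ W).1) := by
  refine ⟨?_, ?_, ?_, ?_⟩
  · intro V _ _ c w hc hw
    have h := potential_stable c w ⟨hc.1, hc.2.1, hc.2.2⟩ hw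
    refine ⟨?_, conclusion h⟩
    rw [mem_stable]
    intro S _
    have h1 : c Finset.univ = 0 := by
      rw [← Finset.compl_empty, hc.2.1, hc.1]
    have h2 := hc.2.2 S Sᶜ
    rw [Finset.union_compl, Finset.inter_compl, hc.2.1, h1, hc.1] at h2
    have h3 : ∑ x ∈ S, w x ≤ ∑ x, w x :=
      Finset.sum_le_sum_of_subset_of_nonneg (Finset.subset_univ _) (fun x _ _ => hw x)
    linarith
  · intro V _ _ G _ m hm
    exact conclusion (potential_orientFam G m hm)
  · intro V _ _ G _ k hk
    obtain ⟨p, w, h⟩ := potential_minDegFam G k hk
    exact conclusion h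
  · intro V _ F h0 hu
    exact exists_perm F F h0 hu (Finset.Subset.refl _) hu

end Pool.Agent.Results.MP_75f39d_co.SymmetricPotentials
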